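import Pool.Agent.H932R4.CMO.Stmts

set_option autoImplicit false

open Finset

namespace Pool.Agent.H932R4.CMO.T3X

open Pool.Agent.H932R4.CMO

/-- the weight of an integer -/
noncomputable def g (n : ℕ) : ℝ := 1 / (n * (Real.log n) ^ 2)

theorem g_nonneg (n : ℕ) : 0 ≤ g n := by unfold g; positivity

theorem g_tele (n : ℕ) (hn : 3 ≤ n) :
    g n ≤ 1 / Real.log ((n : ℝ) - 1) - 1 / Real.log n := by
  have hn' : (3 : ℝ) ≤ n := by exact_mod_cast hn
  have h1 : 0 < Real.log ((n : ℝ) - 1) := Real.log_pos (by linarith)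
  have h2 : 0 < Real.log (n : ℝ) := Real.log_pos (by linarith)
  have h3 : Real.log ((n : ℝ) - 1) ≤ Real.log n := Real.log_le_log (by linarith) (by linarith)
  have h4 : 1 / (n : ℝ) ≤ Real.log n - Real.log ((n : ℝ) - 1) := by
    have h5 := Real.log_le_sub_one_of_pos (x := ((n : ℝ) - 1) / n) (by
      apply div_pos <;> linarith)
    rw [Real.log_div (by linarith) (by linarith)] at h5
    have h6 : ((n : ℝ) - 1) / n - 1 = -(1 / n) := by
      field_simp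
      ring
    rw [h6] at h5
    linarith
  unfold g
  rw [div_sub_div _ _ h1.ne' h2.ne', one_mul, mul_one]
  rw [← div_div]
  apply div_le_div₀ (by linarith) h4 (by positivity)
  rw [pow_two]
  exact mul_le_mul_of_nonneg_right h3 h2.le

theorem g_sum (N k : ℕ) (hN : 3 ≤ N) :
    ∑ n ∈ Ico N (N + k), g n ≤ 1 / Real.log ((N : ℝ) - 1) - 1 / Real.log ((N : ℝ) + k - 1) := by
  induction k with
  | zero => simp
  | succ k ih =>
    rw [← add_assoc, Finset.sum_Ico_succ_top (by omega)]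
    have h1 := g_tele (N + k) (by omega)
    push_cast at h1 ⊢
    have h2 : (N : ℝ) + (k + 1) - 1 = N + k := by ring
    rw [h2]
    linarith

theorem g_sum' (N M : ℕ) (hN : 3 ≤ N) :
    ∑ n ∈ Icc N M, g n ≤ 1 / Real.log ((N : ℝ) - 1) := by
  have h1 := g_sum N (M + 1) hN
  have h2 : ∑ n ∈ Icc N M, g n ≤ ∑ n ∈ Ico N (N + (M + 1)), g n := by
    apply Finset.sum_le_sum_of_subset_of_nonneg
    · intro n hn
      rw [mem_Icc] at hn
      rw [mem_Ico]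
      omega
    · intro n _ _
      exact g_nonneg n
  have hN' : (3 : ℝ) ≤ N := by exact_mod_cast hN
  have h3 : 0 < Real.log ((N : ℝ) + (M + 1 : ℕ) - 1) := by
    apply Real.log_pos
    push_cast
    have : (0 : ℝ) ≤ M := Nat.cast_nonneg M
    linarith
  have h4 := one_div_pos.mpr h3
  linarith

theorem bw_nonneg (N₀ n : ℕ) : 0 ≤ bw N₀ n := by
  unfold bw
  split_ifs
  · unfold Finsupp.prod
    exact Finset.prod_nonneg fun p _ => by positivity
  · exact le_rfl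

theorem bw_one (N₀ : ℕ) : bw N₀ 1 = 1 := by
  unfold bw
  rw [if_pos (by simp)]
  simp

theorem bw_mul_prime (N₀ p m : ℕ) (hp : p.Prime) (hm : m ≠ 0) (_hpN : N₀ ≤ p) :
    bw N₀ (p * m) ≤ 1 / (Real.log p) ^ 2 * bw N₀ m := by
  by_cases h : p * m ≠ 0 ∧ ∀ q ∈ (p * m).primeFactors, N₀ ≤ q
  · have h' : m ≠ 0 ∧ ∀ q ∈ m.primeFactors, N₀ ≤ q := by
      refine ⟨hm, fun q hq => h.2 q ?_⟩
      rw [Nat.primeFactors_mul hp.ne_zero hm]
      exact Finset.mem_union_right _ hq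
    unfold bw
    rw [if_pos h, if_pos h', Nat.factorization_mul hp.ne_zero hm, hp.factorization]
    rw [Finsupp.prod_add_index' (by intro a; simp) (by intro a b c; rw [pow_add])]
    rw [Finsupp.prod_single_index (by simp), pow_one]
  · have : bw N₀ (p * m) = 0 := by unfold bw; rw [if_neg h]
    rw [this]
    have := bw_nonneg N₀ m
    positivity

theorem term_le (N₀ m : ℕ) (hm : 2 ≤ m) (hne : bw N₀ m ≠ 0) :
    N₀ ≤ m.minFac ∧ bw N₀ m / m ≤ g m.minFac * (bw N₀ (m / m.minFac) / (m / m.minFac : ℕ)) := by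
  have hp : m.minFac.Prime := Nat.minFac_prime (by omega)
  have hd : m.minFac ∣ m := Nat.minFac_dvd m
  have hpN : N₀ ≤ m.minFac := by
    unfold bw at hne
    split_ifs at hne with h
    · exact h.2 _ (Nat.mem_primeFactors.2 ⟨hp, hd, by omega⟩)
    · exact absurd rfl hne
  refine ⟨hpN, ?_⟩
  obtain ⟨k, hk⟩ := hd
  obtain ⟨p, hpdef⟩ : ∃ p, p = m.minFac := ⟨_, rfl⟩
  rw [← hpdef] at hk hp hpN ⊢
  have hp0 : 0 < p := hp.pos
  have hk0 : k ≠ 0 := by rintro rfl; omega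
  have hdiv : m / p = k := by rw [hk]; exact Nat.mul_div_cancel_left k hp0
  rw [hdiv]
  have h := bw_mul_prime N₀ p k hp hk0 hpN
  rw [hk]
  unfold g
  have hkp : (0:ℝ) < k := by exact_mod_cast Nat.pos_of_ne_zero hk0
  have hpp : (0:ℝ) < p := by exact_mod_cast hp0
  push_cast
  calc bw N₀ (p * k) / ((p:ℝ) * k) ≤ (1 / (Real.log p) ^ 2 * bw N₀ k) / ((p:ℝ) * k) := by
        gcongr
    _ = 1 / ((p:ℝ) * (Real.log p) ^ 2) * (bw N₀ k / k) := by
        rw [← one_div_mul_one_div]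
        field_simp

theorem sum_rec (N₀ M : ℕ) (_hN : 3 ≤ N₀) :
    ∑ m ∈ Icc 2 M, bw N₀ m / m ≤ (∑ p ∈ Icc N₀ M, g p) * (1 + ∑ m ∈ Icc 2 M, bw N₀ m / m) := by
  classical
  have hnn : ∀ m : ℕ, 0 ≤ bw N₀ m / m := fun m => div_nonneg (bw_nonneg _ _) (Nat.cast_nonneg _)
  rcases Nat.lt_or_ge M 2 with hM | hM
  · rw [Finset.Icc_eq_empty (by omega), Finset.sum_empty]
    have : 0 ≤ ∑ p ∈ Icc N₀ M, g p := Finset.sum_nonneg fun p _ => g_nonneg p
    positivity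
  set T := (Icc 2 M).filter (fun m => bw N₀ m ≠ 0) with hT
  have h1 : ∑ m ∈ Icc 2 M, bw N₀ m / m = ∑ m ∈ T, bw N₀ m / m := by
    rw [hT, Finset.sum_filter]
    refine Finset.sum_congr rfl fun m _ => ?_
    split_ifs with h
    · rfl
    · rw [not_not] at h
      rw [h, zero_div]
  have h2 : ∑ m ∈ T, bw N₀ m / m ≤ ∑ m ∈ T, (fun x : ℕ × ℕ => g x.1 * (bw N₀ x.2 / x.2))
      (m.minFac, m / m.minFac) := by
    apply Finset.sum_le_sum
    intro m hm
    rw [hT, mem_filter, mem_Icc] at hm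
    exact (term_le N₀ m hm.1.1 hm.2).2
  have hinj : Set.InjOn (fun m : ℕ => (m.minFac, m / m.minFac)) (T : Set ℕ) := by
    intro a ha b hb hab
    simp only [Prod.mk.injEq] at hab
    rw [← Nat.mul_div_cancel' (Nat.minFac_dvd a), ← Nat.mul_div_cancel' (Nat.minFac_dvd b),
      hab.2]
    congr 1
    exact hab.1
  have h3 : ∑ m ∈ T, (fun x : ℕ × ℕ => g x.1 * (bw N₀ x.2 / x.2)) (m.minFac, m / m.minFac) =
      ∑ x ∈ T.image (fun m : ℕ => (m.minFac, m / m.minFac)), g x.1 * (bw N₀ x.2 / x.2) := by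
    rw [Finset.sum_image hinj]
  have h4 : ∑ x ∈ T.image (fun m : ℕ => (m.minFac, m / m.minFac)), g x.1 * (bw N₀ x.2 / x.2) ≤
      ∑ x ∈ (Icc N₀ M) ×ˢ (Icc 1 M), g x.1 * (bw N₀ x.2 / x.2) := by
    apply Finset.sum_le_sum_of_subset_of_nonneg
    · intro x hx
      rw [mem_image] at hx
      obtain ⟨m, hm, rfl⟩ := hx
      rw [hT, mem_filter, mem_Icc] at hm
      have ht := (term_le N₀ m hm.1.1 hm.2).1
      have hle : m.minFac ≤ m := Nat.minFac_le (by omega)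
      rw [mem_product, mem_Icc, mem_Icc]
      refine ⟨⟨ht, hle.trans hm.1.2⟩, ?_, (Nat.div_le_self _ _).trans hm.1.2⟩
      exact Nat.div_pos hle (Nat.minFac_pos m)
    · intro x _ _
      exact mul_nonneg (g_nonneg _) (hnn _)
  have h5 : ∑ x ∈ (Icc N₀ M) ×ˢ (Icc 1 M), g x.1 * (bw N₀ x.2 / x.2) =
      (∑ p ∈ Icc N₀ M, g p) * ∑ m ∈ Icc 1 M, bw N₀ m / m := by
    rw [Finset.sum_product, Finset.sum_mul_sum]
  have h6 : ∑ m ∈ Icc 1 M, bw N₀ m / m = 1 + ∑ m ∈ Icc 2 M, bw N₀ m / m := by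
    rw [← Finset.add_sum_Ioc_eq_sum_Icc (by omega : 1 ≤ M)]
    congr 1
    rw [bw_one]; simp
  rw [← h6, ← h5]
  rw [h1]
  exact h2.trans (h3.le.trans h4)

/-- T3: the tail of the Dirichlet series of the weight is small -/
theorem t3 : T3 := by
  intro τ hτ
  obtain ⟨σ, hσ⟩ : ∃ σ : ℝ, σ = τ / (1 + τ) := ⟨_, rfl⟩
  have hσ0 : 0 < σ := by rw [hσ]; positivity
  have hσ1 : σ < 1 := by rw [hσ, div_lt_one (by linarith)]; linarith
  obtain ⟨N, hN⟩ := exists_nat_gt (Real.exp (1 / σ) + 1)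
  refine ⟨N + 3, by omega, fun N₀ hN₀ M => ?_⟩
  have hN₀' : (N : ℝ) + 3 ≤ N₀ := by exact_mod_cast hN₀
  have h1 : 1 / σ ≤ Real.log ((N₀ : ℝ) - 1) := by
    rw [Real.le_log_iff_exp_le (by
      have := Real.exp_pos (1 / σ)
      linarith)]
    linarith
  have h2 : 1 / Real.log ((N₀ : ℝ) - 1) ≤ σ := by
    have := one_div_le_one_div_of_le (one_div_pos.mpr hσ0) h1
    rwa [one_div_one_div] at this
  have h3 := (g_sum' N₀ M (by omega)).trans h2
  have h4 := sum_rec N₀ M (by omega)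
  have hW : 0 ≤ ∑ m ∈ Icc 2 M, bw N₀ m / (m:ℝ) :=
    Finset.sum_nonneg fun m _ => div_nonneg (bw_nonneg _ _) (Nat.cast_nonneg _)
  have h5 : ∑ m ∈ Icc 2 M, bw N₀ m / (m:ℝ) ≤ σ * (1 + ∑ m ∈ Icc 2 M, bw N₀ m / (m:ℝ)) :=
    h4.trans (mul_le_mul_of_nonneg_right h3 (by linarith))
  have h6 : (1 - σ) * ∑ m ∈ Icc 2 M, bw N₀ m / (m:ℝ) ≤ σ := by linarith
  have h7 : (1 - σ) * (1 + τ) = 1 := by rw [hσ]; field_simp; ring
  have h8 : σ * (1 + τ) = τ := by rw [hσ]; field_simp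
  have h9 : (1 + τ) * ((1 - σ) * ∑ m ∈ Icc 2 M, bw N₀ m / (m:ℝ)) ≤ (1 + τ) * σ :=
    mul_le_mul_of_nonneg_left h6 (by linarith)
  calc ∑ m ∈ Icc 2 M, bw N₀ m / (m:ℝ)
      = ((1 - σ) * (1 + τ)) * ∑ m ∈ Icc 2 M, bw N₀ m / (m:ℝ) := by rw [h7, one_mul]
    _ = (1 + τ) * ((1 - σ) * ∑ m ∈ Icc 2 M, bw N₀ m / (m:ℝ)) := by ring
    _ ≤ (1 + τ) * σ := h9
    _ = τ := by rw [mul_comm]; exact h8

end Pool.Agent.H932R4.CMO.T3X
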