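import Pool.Agent.H932R4.CMO.Stmts

set_option autoImplicit false

open Finset Filter Topology

namespace Pool.Agent.H932R4.CMO.T5bX

open Pool.Agent.H932R4.CMO

lemma ev2 (c κ : ℝ) (hc : 0 < c) (hκ : 0 < κ) :
    ∀ᶠ L : ℝ in atTop, Real.exp (-(c * L ^ ((1:ℝ)/5))) ≤ κ / L ^ 3 := by
  have h1 := Real.tendsto_pow_mul_exp_neg_atTop_nhds_zero 15
  have h2 : Tendsto (fun L : ℝ => c * L ^ ((1:ℝ)/5)) atTop atTop :=
    (tendsto_rpow_atTop (by norm_num)).const_mul_atTop hc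
  have h3 := h1.comp h2
  have h4 : ∀ᶠ L : ℝ in atTop, (c * L ^ ((1:ℝ)/5)) ^ 15 * Real.exp (-(c * L ^ ((1:ℝ)/5))) < κ * c ^ 15 := by
    have := h3.eventually (gt_mem_nhds (show (0:ℝ) < κ * c ^ 15 by positivity))
    exact this
  filter_upwards [h4, eventually_ge_atTop (1:ℝ)] with L hL hL1
  have hL0 : 0 < L := by linarith
  have h5 : (c * L ^ ((1:ℝ)/5)) ^ 15 = c ^ 15 * L ^ 3 := by
    rw [mul_pow, ← Real.rpow_natCast (L ^ ((1:ℝ)/5)) 15, ← Real.rpow_mul hL0.le]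
    norm_num
  rw [h5] at hL
  rw [le_div_iff₀ (by positivity)]
  have hc15 : 0 < c ^ 15 := by positivity
  by_contra hcon
  push Not at hcon
  have : κ * c ^ 15 < (Real.exp (-(c * L ^ ((1:ℝ)/5))) * L ^ 3) * c ^ 15 :=
    mul_lt_mul_of_pos_right hcon hc15
  nlinarith

lemma bw_prod (n : ℕ) (g : ℕ → ℝ) :
    n.factorization.prod (fun p k => g p ^ k) = ((n.primeFactorsList : Multiset ℕ).map g).prod := by
  classical
  rw [Finset.prod_multiset_map_count]
  unfold Finsupp.prod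
  rw [Nat.support_factorization]
  apply Finset.prod_congr
  · rfl
  · intro p _
    rw [Multiset.coe_count, Nat.primeFactorsList_count_eq]

lemma ms_prod_le (M : Multiset ℕ) (g : ℕ → ℝ) (r : ℝ) :
    (∀ p ∈ M, 0 ≤ g p) → (∀ p ∈ M, g p ≤ r) →
      0 ≤ (M.map g).prod ∧ (M.map g).prod ≤ r ^ M.card := by
  induction M using Multiset.induction with
  | empty => intro _ _; simp
  | cons a s ih =>
    intro h0 h1
    obtain ⟨i0, i1⟩ := ih (fun p hp => h0 p (Multiset.mem_cons_of_mem hp))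
      (fun p hp => h1 p (Multiset.mem_cons_of_mem hp))
    have ha0 := h0 a (Multiset.mem_cons_self a s)
    have ha1 := h1 a (Multiset.mem_cons_self a s)
    rw [Multiset.map_cons, Multiset.prod_cons, Multiset.card_cons, pow_succ, mul_comm]
    exact ⟨mul_nonneg i0 ha0, mul_le_mul i1 ha1 ha0 (i0.trans i1)⟩

lemma ms_log (M : Multiset ℕ) (T : ℝ) : (∀ p ∈ M, 0 < p) → (∀ p ∈ M, Real.log (p:ℝ) ≤ T) →
    0 < (M.map (fun p : ℕ => (p:ℝ))).prod ∧
      Real.log ((M.map (fun p : ℕ => (p:ℝ))).prod) ≤ M.card * T := by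
  induction M using Multiset.induction with
  | empty => intro _ _; simp
  | cons a s ih =>
    intro h0 h1
    obtain ⟨i0, i1⟩ := ih (fun p hp => h0 p (Multiset.mem_cons_of_mem hp))
      (fun p hp => h1 p (Multiset.mem_cons_of_mem hp))
    have ha0 : (0:ℝ) < a := by exact_mod_cast h0 a (Multiset.mem_cons_self a s)
    have ha1 := h1 a (Multiset.mem_cons_self a s)
    rw [Multiset.map_cons, Multiset.prod_cons, Multiset.card_cons]
    refine ⟨mul_pos ha0 i0, ?_⟩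
    rw [Real.log_mul ha0.ne' i0.ne']
    push_cast
    linarith

theorem t5b : T5b := by
  intro θ κ hθ hθ1 hκ N₀ hN₀
  have hlog3 : 1 < Real.log 3 := by
    rw [Real.lt_log_iff_exp_lt (by norm_num)]
    have := Real.exp_one_lt_d9
    linarith
  obtain ⟨r, hr⟩ : ∃ r : ℝ, r = 1 / (Real.log 3) ^ 2 := ⟨_, rfl⟩
  have hr0 : 0 < r := by rw [hr]; positivity
  have hr1 : r < 1 := by
    rw [hr, div_lt_one (by positivity)]
    nlinarith
  obtain ⟨a, ha⟩ : ∃ a : ℝ, a = - Real.log r := ⟨_, rfl⟩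
  have ha0 : 0 < a := by
    rw [ha]
    have := Real.log_neg hr0 hr1
    linarith
  have E1 : ∀ᶠ L : ℝ in atTop, L ^ (-((1:ℝ)/5)) ≤ κ := by
    have := (tendsto_rpow_neg_atTop (show (0:ℝ) < 1/5 by norm_num)).eventually
      (gt_mem_nhds hκ)
    filter_upwards [this] with L hL using hL.le
  have E2 := ev2 (a * (θ / 2)) κ (by positivity) hκ
  have E3 : ∀ᶠ L : ℝ in atTop, L ^ (-((1:ℝ)/5)) ≤ κ ∧
      Real.exp (-(a * (θ / 2) * L ^ ((1:ℝ)/5))) ≤ κ / L ^ 3 ∧ 1 ≤ L := by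
    filter_upwards [E1, E2, eventually_ge_atTop (1:ℝ)] with L h1 h2 h3 using ⟨h1, h2, h3⟩
  have E4 : ∀ᶠ X : ℕ in atTop, (Real.log X) ^ (-((1:ℝ)/5)) ≤ κ ∧
      Real.exp (-(a * (θ / 2) * (Real.log X) ^ ((1:ℝ)/5))) ≤ κ / (Real.log X) ^ 3 ∧
        1 ≤ Real.log X :=
    (Real.tendsto_log_atTop.comp tendsto_natCast_atTop_atTop).eventually E3
  obtain ⟨X₁, hX₁⟩ := eventually_atTop.1 E4
  refine ⟨max X₁ 3, le_max_right _ _, ?_⟩
  intro X n hX hn1 hn2 hq
  obtain ⟨e1, e2, e3⟩ := hX₁ X ((le_max_left _ _).trans hX)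
  have hX3 : 3 ≤ X := (le_max_right _ _).trans hX
  obtain ⟨L, hL⟩ : ∃ L : ℝ, L = Real.log X := ⟨_, rfl⟩
  rw [← hL] at e1 e2 e3 ⊢
  have hL0 : 0 < L := by linarith
  unfold bw
  split_ifs with hsq
  swap
  · positivity
  obtain ⟨hnz, hp⟩ := hsq
  have hXpos : (0:ℝ) < X := by exact_mod_cast (by omega : 0 < X)
  have hn0 : n ≠ 0 := by omega
  rw [bw_prod n (fun p : ℕ => 1 / (Real.log p) ^ 2)]
  obtain ⟨F, hF⟩ : ∃ F : Multiset ℕ, F = (n.primeFactorsList : Multiset ℕ) := ⟨_, rfl⟩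
  rw [← hF]
  have hFmem : ∀ p ∈ F, p ∈ n.primeFactors := by
    intro p hpm
    rw [hF] at hpm
    exact List.mem_toFinset.2 (Multiset.mem_coe.1 hpm)
  -- the factors
  have hlogp : ∀ p ∈ F, Real.log 3 ≤ Real.log p := by
    intro p hpm
    apply Real.log_le_log (by norm_num)
    exact_mod_cast hN₀.trans (hp p (hFmem p hpm))
  have hf0 : ∀ p ∈ F, 0 ≤ 1 / (Real.log p) ^ 2 := by
    intro p hpm; positivity
  have hfr : ∀ p ∈ F, 1 / (Real.log p) ^ 2 ≤ r := by
    intro p hpm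
    rw [hr]
    apply one_div_le_one_div_of_le (by positivity)
    exact pow_le_pow_left₀ (by linarith) (hlogp p hpm) 2
  have hf1 : ∀ p ∈ F, 1 / (Real.log p) ^ 2 ≤ 1 := fun p hpm =>
    (hfr p hpm).trans hr1.le
  obtain ⟨T, hT⟩ : ∃ T : ℝ, T = L ^ ((4:ℝ)/5) := ⟨_, rfl⟩
  have hT0 : 0 < T := by rw [hT]; positivity
  have hT1 : 1 ≤ T := by rw [hT]; exact Real.one_le_rpow e3 (by norm_num)
  classical
  obtain ⟨B, hB⟩ : ∃ B : Multiset ℕ, B = F.filter (fun p : ℕ => T ≤ Real.log p) := ⟨_, rfl⟩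
  obtain ⟨R, hR⟩ : ∃ R : Multiset ℕ, R = F.filter (fun p : ℕ => ¬ (T ≤ Real.log p)) := ⟨_, rfl⟩
  have hBR : B + R = F := by rw [hB, hR]; exact Multiset.filter_add_not _ _
  have hBsub : ∀ p ∈ B, p ∈ F := by
    intro p hpm; rw [hB] at hpm; exact Multiset.mem_of_mem_filter hpm
  have hRsub : ∀ p ∈ R, p ∈ F := by
    intro p hpm; rw [hR] at hpm; exact Multiset.mem_of_mem_filter hpm
  have hsplit : ((F.map (fun p : ℕ => 1 / (Real.log (p:ℝ)) ^ 2)).prod : ℝ) =
      (B.map (fun p : ℕ => 1 / (Real.log (p:ℝ)) ^ 2)).prod *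
        (R.map (fun p : ℕ => 1 / (Real.log (p:ℝ)) ^ 2)).prod := by
    rw [← hBR, Multiset.map_add, Multiset.prod_add]
  rw [hsplit]
  rcases Nat.lt_or_ge 1 B.card with h1 | h1
  · have g1 := ms_prod_le R (fun p : ℕ => 1 / (Real.log (p:ℝ)) ^ 2) 1
      (fun p hpm => hf0 p (hRsub p hpm)) (fun p hpm => hf1 p (hRsub p hpm))
    have g2 := ms_prod_le B (fun p : ℕ => 1 / (Real.log (p:ℝ)) ^ 2) (1 / T ^ 2)
      (fun p hpm => hf0 p (hBsub p hpm)) (by
        intro p hpm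
        rw [hB] at hpm
        have hpT : T ≤ Real.log (p:ℝ) := (Multiset.mem_filter.1 hpm).2
        apply one_div_le_one_div_of_le (by positivity)
        exact pow_le_pow_left₀ hT0.le hpT 2)
    have g3 : (1 / T ^ 2) ^ B.card ≤ (1 / T ^ 2) ^ 2 := by
      apply pow_le_pow_of_le_one (by positivity)
      · rw [div_le_one (by positivity)]
        exact one_le_pow₀ hT1
      · exact h1
    have g4 : (1 / T ^ 2) ^ 2 = L ^ (-((1:ℝ)/5)) / L ^ 3 := by
      have : T ^ 4 = L ^ 3 * L ^ ((1:ℝ)/5) := by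
        rw [hT, ← Real.rpow_natCast (L ^ ((4:ℝ)/5)) 4, ← Real.rpow_mul hL0.le,
          ← Real.rpow_natCast L 3, ← Real.rpow_add hL0]
        norm_num
      rw [Real.rpow_neg hL0.le]
      have hl : L ^ ((1:ℝ)/5) ≠ 0 := (Real.rpow_pos_of_pos hL0 _).ne'
      rw [sq, div_mul_div_comm, ← pow_add, this]
      field_simp
    rw [one_pow] at g1
    calc (B.map (fun p : ℕ => 1 / (Real.log (p:ℝ)) ^ 2)).prod *
          (R.map (fun p : ℕ => 1 / (Real.log (p:ℝ)) ^ 2)).prod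
        ≤ (1 / T ^ 2) ^ 2 * 1 := mul_le_mul (g2.2.trans g3) g1.2 g1.1 (by positivity)
      _ = L ^ (-((1:ℝ)/5)) / L ^ 3 := by rw [mul_one, g4]
      _ ≤ κ / L ^ 3 := by gcongr
  · have g1 := ms_prod_le B (fun p : ℕ => 1 / (Real.log (p:ℝ)) ^ 2) 1
      (fun p hpm => hf0 p (hBsub p hpm)) (fun p hpm => hf1 p (hBsub p hpm))
    have g2 := ms_prod_le R (fun p : ℕ => 1 / (Real.log (p:ℝ)) ^ 2) r
      (fun p hpm => hf0 p (hRsub p hpm)) (fun p hpm => hfr p (hRsub p hpm))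
    have hprod : (B.map (fun p : ℕ => (p:ℝ))).prod * (R.map (fun p : ℕ => (p:ℝ))).prod = n := by
      rw [← Multiset.prod_add, ← Multiset.map_add, hBR, hF]
      have h := Nat.prod_primeFactorsList hn0
      have h' := congrArg (Nat.cast : ℕ → ℝ) h
      rw [Multiset.map_coe, Multiset.prod_coe]
      rw [← h', Nat.cast_list_prod]
    have hRlog := ms_log R T (fun p hpm => (Nat.prime_of_mem_primeFactors
        (hFmem p (hRsub p hpm))).pos) (by
      intro p hpm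
      rw [hR] at hpm
      exact (not_le.1 (Multiset.mem_filter.1 hpm).2).le)
    have hRgt : (X:ℝ) ^ (θ / 2) < (R.map (fun p : ℕ => (p:ℝ))).prod := by
      rcases Nat.lt_or_ge 0 B.card with h0 | h0
      · obtain ⟨q, hqB⟩ := Multiset.card_eq_one.1 (by omega : B.card = 1)
        have hqm : q ∈ n.primeFactors := hFmem q (hBsub q (by rw [hqB]; simp))
        have hq0 : (0:ℝ) < q := by
          exact_mod_cast (Nat.prime_of_mem_primeFactors hqm).pos
        have := hq q hqm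
        rw [hqB, Multiset.map_singleton, Multiset.prod_singleton] at hprod
        rwa [← hprod, mul_comm, mul_div_assoc, div_self hq0.ne', mul_one] at this
      · have hB0 : B = 0 := Multiset.card_eq_zero.1 (by omega)
        rw [hB0, Multiset.map_zero, Multiset.prod_zero, one_mul] at hprod
        rw [hprod]
        have h5 : (X:ℝ) ^ (θ / 2) ≤ (X:ℝ) ^ (1:ℝ) :=
          Real.rpow_le_rpow_of_exponent_le (by exact_mod_cast (by omega : 1 ≤ X)) (by linarith)
        rw [Real.rpow_one] at h5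
        have h6 : (X:ℝ) < n := by exact_mod_cast hn1
        linarith
    have hlogR : θ / 2 * L < Real.log ((R.map (fun p : ℕ => (p:ℝ))).prod) := by
      rw [hL, ← Real.log_rpow hXpos]
      exact Real.log_lt_log (Real.rpow_pos_of_pos hXpos _) hRgt
    have hcard : θ / 2 * L ^ ((1:ℝ)/5) < R.card := by
      have h9 : L = L ^ ((1:ℝ)/5) * T := by
        rw [hT, ← Real.rpow_add hL0]
        norm_num
      have h10 : θ / 2 * L ^ ((1:ℝ)/5) * T < R.card * T := by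
        calc θ / 2 * L ^ ((1:ℝ)/5) * T = θ / 2 * (L ^ ((1:ℝ)/5) * T) := by ring
          _ = θ / 2 * L := by rw [← h9]
          _ < R.card * T := hlogR.trans_le hRlog.2
      exact lt_of_mul_lt_mul_right h10 hT0.le
    have hpow : r ^ R.card ≤ Real.exp (-(a * (θ / 2) * L ^ ((1:ℝ)/5))) := by
      have h11 : r ^ R.card = Real.exp (-(a * R.card)) := by
        rw [ha, ← Real.rpow_natCast, Real.rpow_def_of_pos hr0]
        congr 1
        ring
      rw [h11]
      apply Real.exp_le_exp.2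
      have : a * (θ / 2 * L ^ ((1:ℝ)/5)) ≤ a * R.card := mul_le_mul_of_nonneg_left hcard.le ha0.le
      linarith
    rw [one_pow] at g1
    calc (B.map (fun p : ℕ => 1 / (Real.log (p:ℝ)) ^ 2)).prod *
          (R.map (fun p : ℕ => 1 / (Real.log (p:ℝ)) ^ 2)).prod
        ≤ 1 * r ^ R.card := mul_le_mul g1.2 g2.2 g2.1 (by norm_num)
      _ ≤ κ / L ^ 3 := by rw [one_mul]; exact hpow.trans e2

end Pool.Agent.H932R4.CMO.T5bX
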