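import Pool.Agent.H932R4.CMO.Stmts

set_option autoImplicit false

open Finset

namespace Pool.Agent.H932R4.CMO

theorem abs_sub_clip (b s : ℝ) (hb : 0 ≤ b) : |s + -clip b s| = max (|s| - b) 0 := by
  unfold clip
  rcases le_total s b with h1 | h1
  · rw [min_eq_left h1]
    rcases le_total (-b) s with h2 | h2
    · rw [max_eq_right h2, add_neg_cancel, abs_zero, max_eq_right]
      have := abs_le.2 ⟨h2, h1⟩
      linarith
    · rw [max_eq_left h2]
      have h3 : s ≤ 0 := by linarith
      rw [abs_of_nonpos (by linarith : s + -(-b) ≤ 0), abs_of_nonpos h3, max_eq_left (by linarith)]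
      ring
  · rw [min_eq_right h1, max_eq_right (by linarith : -b ≤ b)]
    have h3 : 0 ≤ s := by linarith
    rw [abs_of_nonneg (by linarith : 0 ≤ s + -b), abs_of_nonneg h3, max_eq_left (by linarith)]
    ring

theorem t6 : T6 := by
  intro ε N₀ f hε hN hf
  have hstep : ∀ n : ℕ, 1 ≤ n → S f n = S f (n - 1) + f n := by
    intro n hn
    obtain ⟨m, rfl⟩ := Nat.exists_eq_add_of_le' hn
    unfold S
    rw [Nat.add_sub_cancel, Finset.sum_range_succ]
  refine ⟨?_, ?_, ?_, ?_, ?_⟩
  · intro n hn _
    rw [hstep n hn]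
    exact abs_add_le _ _
  · intro p hp hpN
    have hp1 : 1 ≤ p := hp.one_lt.le
    have h2 : ∑ n ∈ range p, f n = S f (p - 1) := by
      unfold S
      rw [Nat.sub_add_cancel hp1]
    rw [hstep p hp1, hf.big p hp hpN, h2]
    apply abs_sub_clip
    unfold Bd
    exact div_nonneg (Real.rpow_nonneg (Nat.cast_nonneg _) _) (sq_nonneg _)
  · unfold S
    rw [Finset.sum_range_one]
    exact hf.zero
  · exact hf.zero
  · exact hf.one

end Pool.Agent.H932R4.CMO
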