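import Pool.Agent.H932R4.CMO.Final0
import Pool.Agent.H511R3.CMO.T1
import Pool.Agent.H574R3.CMO.T2
import Pool.Agent.H888R3.CMO.T5a
import Pool.Agent.H932R4.CMO.T3
import Pool.Agent.H932R4.CMO.T5b
import Pool.Agent.H932R4.CMO.T6
import Pool.Agent.H449R3.MoT7
import Pool.Agent.H932R4.CMO.T8
import Pool.Agent.H932R4.CMO.T9
import Pool.Agent.H295R3.Hoheisel
import Pool.Agent.H902R3.Task469C

set_option autoImplicit false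

open Finset Filter Topology

namespace Pool.Agent.H932R4.CMO

theorem bt3 : BT3 := by
  obtain ⟨Y₀, h2, h⟩ := Pool.Agent.H902R3.C469.bt2 1 one_pos
  refine ⟨Y₀, h2, fun A Y hY => ?_⟩
  have := h A Y hY
  norm_num at this
  convert this using 1

theorem exists_short : ∃ θ : ℝ, 0 < θ ∧ θ < 1 ∧ ShortIntervals θ := by
  obtain ⟨δ, η, h1, h2, h3, X₀, h4, h⟩ := Pool.Agent.H295R3.D.hoheisel
  refine ⟨1 - δ, by linarith, by linarith, η, h3, X₀, h4, fun X Y hX hY hYX => ?_⟩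
  exact h X Y hX hY hYX

theorem T5_true : T5 := t5 t5a T5bX.t5b bt3 T3X.t3

open Classical in
theorem final (θ : ℝ) (hθ0 : 0 < θ) (hθ1 : θ < 1) (hS : ShortIntervals θ) (ε : ℝ) (hε : 0 < ε) :
    ∃ g : ℕ → ℝ, g 0 = 0 ∧ g 1 = 1 ∧ (∀ m n : ℕ, g (m * n) = g m * g n) ∧
      (∀ n : ℕ, 1 ≤ n → |g n| ≤ (n : ℝ) ^ (-1 + ε)) ∧ (∀ p : ℕ, p.Prime → |g p| < 1) ∧
      Tendsto (fun n : ℕ => S g n) atTop (𝓝 0) ∧
      (∃ x₀ : ℝ, ∀ x : ℝ, x₀ ≤ x → |S g ⌊x⌋₊| ≤ x ^ (θ - 1 + ε)) ∧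
      (∃ X₀ : ℕ, ∀ X : ℕ, X₀ ≤ X →
        (((Ioc X (2 * X)).filter (fun p : ℕ => p.Prime ∧ ¬ Good ε g p)).card : ℝ) ≤
          ε * ((Ioc X (2 * X)).filter Nat.Prime).card) :=
  main t1 T2_574.t2 T5_true t6 Pool.Agent.H449R3.MoT7.t7 t8
    T9a.t9 θ hθ0 hθ1 hS ε hε

end Pool.Agent.H932R4.CMO
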