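import Pool.Agent.H932R4.CMO.Asm3

set_option autoImplicit false

open Finset Filter Topology

namespace Pool.Agent.H932R4.CMO

theorem psum_cast (g : ℕ → ℝ) (h0 : g 0 = 0) (n : ℕ) :
    ∑ k ∈ Icc 1 n, ((g k : ℝ) : ℂ) = ((S g n : ℝ) : ℂ) := by
  rw [S_eq g h0]
  push_cast
  rfl

end Pool.Agent.H932R4.CMO
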